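import Pool.Agent.Q120.MF.Model
import Pool.Agent.Q120.ET.Main

/-!
# Cramér's model: the Borel-Cantelli dichotomy for disjoint windows
-/

set_option autoImplicit false

namespace Pool.Agent.Q120.PT

open Finset MeasureTheory Filter Pool.Agent.Q120.ET Pool.Agent.Q120.MF

variable {Ω : Type*} [MeasurableSpace Ω] {μ : Measure Ω} [IsProbabilityMeasure μ] {A : Ω → Set ℕ}

/-- The probability that `W` contains no element. -/
noncomputable def pFree (W : Finset ℕ) : ℝ := ∏ n ∈ W, (1 - 1 / Real.log (n : ℝ))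

theorem pFree_nonneg {W : Finset ℕ} (hW : ∀ n ∈ W, 3 ≤ n) : 0 ≤ pFree W := by
  unfold pFree
  apply prod_nonneg
  intro n hn
  have h1 := one_lt_log (hW n hn)
  have : 1 / Real.log (n : ℝ) < 1 := by rw [div_lt_one (by linarith)]; exact h1
  linarith

theorem pFree_le_one {W : Finset ℕ} (hW : ∀ n ∈ W, 3 ≤ n) : pFree W ≤ 1 := by
  unfold pFree
  apply prod_le_one
  · intro n hn
    have h1 := one_lt_log (hW n hn)
    have : 1 / Real.log (n : ℝ) < 1 := by rw [div_lt_one (by linarith)]; exact h1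
    linarith
  · intro n hn
    have h1 := one_lt_log (hW n hn)
    have : 0 < 1 / Real.log (n : ℝ) := by
      have : 0 < Real.log (n : ℝ) := by linarith
      positivity
    linarith

/-- If the probabilities are summable, almost surely almost all windows are hit. -/
theorem hit_all (hA : IsCramer μ A) (W : ℕ → Finset ℕ) (hW : ∀ i, ∀ n ∈ W i, 3 ≤ n)
    (hs : Summable (fun i => pFree (W i))) : ∀ᵐ ω ∂μ, ∀ᶠ i in atTop, ∃ a ∈ A ω, a ∈ W i := by
  have h1 := ae_eventually_notMem (tsum_ne_top_of_real (μ := μ) hs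
    (f := fun i => {ω | Disjoint (tr A (W i) ω) (W i)}) (Eventually.of_forall (fun i => by
      rw [real_free hA (hW i)]; rfl)))
  filter_upwards [h1] with ω hω
  filter_upwards [hω] with i hi
  have h2 : ¬ Disjoint (tr A (W i) ω) (W i) := hi
  rw [Finset.not_disjoint_iff] at h2
  obtain ⟨a, ha1, ha2⟩ := h2
  exact ⟨a, (mem_tr.1 ha1).2, ha2⟩

/-- If the windows are disjoint and the probabilities are not summable, almost surely infinitely many windows are
free. -/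
theorem free_often (hA : IsCramer μ A) (W : ℕ → Finset ℕ) (hW : ∀ i, ∀ n ∈ W i, 3 ≤ n) (N0 : ℕ)
    (hd : ∀ i j, N0 ≤ i → N0 ≤ j → i ≠ j → Disjoint (W i) (W j))
    (hs : ¬ Summable (fun i => pFree (W i))) : ∀ᵐ ω ∂μ, ∃ᶠ i in atTop, ∀ a ∈ A ω, a ∉ W i := by
  have hT := (not_summable_iff_tendsto_nat_atTop_of_nonneg (fun i => pFree_nonneg (hW i))).1 hs
  have key : ∀ N, N0 ≤ N → μ {ω | ∀ i, N ≤ i → ∃ a ∈ A ω, a ∈ W i} = 0 := by
    intro N hN
    have h1 : ∀ M, N ≤ M → μ.real {ω | ∀ i, N ≤ i → ∃ a ∈ A ω, a ∈ W i} ≤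
        Real.exp (∑ i ∈ range N, pFree (W i) - ∑ i ∈ range M, pFree (W i)) := by
      intro M hM
      have h2 : ∀ i ∈ Ico N M, W i ⊆ (Ico N M).biUnion W := fun i hi => subset_biUnion_of_mem W hi
      have h3 : ∀ n ∈ (Ico N M).biUnion W, 3 ≤ n := by
        intro n hn
        rw [mem_biUnion] at hn
        obtain ⟨i, _, hi⟩ := hn
        exact hW i n hi
      have h4 : ∀ i ∈ Ico N M, ∀ j ∈ Ico N M, i ≠ j → Disjoint (W i) (W j) := by
        intro i hi j hj hij
        rw [mem_Ico] at hi hj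
        exact hd i j (hN.trans hi.1) (hN.trans hj.1) hij
      have h5 := real_no_free hA h3 (Ico N M) W h2 h4
      have h6 : {ω | ∀ i, N ≤ i → ∃ a ∈ A ω, a ∈ W i} ⊆
          {ω | ∀ i ∈ Ico N M, ¬ Disjoint (tr A ((Ico N M).biUnion W) ω) (W i)} := by
        intro ω hω i hi
        rw [Finset.not_disjoint_iff]
        obtain ⟨a, ha1, ha2⟩ := hω i (mem_Ico.1 hi).1
        exact ⟨a, mem_tr.2 ⟨h2 i hi ha2, ha1⟩, ha2⟩
      refine (measureReal_mono h6).trans ?_
      rw [h5]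
      have h7 : ∏ i ∈ Ico N M, (1 - ∏ n ∈ W i, (1 - 1 / Real.log (n : ℝ))) ≤
          ∏ i ∈ Ico N M, Real.exp (-pFree (W i)) := by
        apply Finset.prod_le_prod
        · intro i _
          have := pFree_le_one (hW i)
          unfold pFree at this
          linarith
        · intro i _
          exact Real.one_sub_le_exp_neg _
      refine h7.trans (le_of_eq ?_)
      rw [← Real.exp_sum, sum_neg_distrib]
      congr 1
      rw [range_eq_Ico, range_eq_Ico, ← sum_Ico_consecutive _ (Nat.zero_le N) hM]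
      ring
    have h2 : Tendsto (fun M => Real.exp (∑ i ∈ range N, pFree (W i) - ∑ i ∈ range M, pFree (W i)))
        atTop (nhds 0) := by
      apply Real.tendsto_exp_atBot.comp
      have h3 : Tendsto (fun M => -(∑ i ∈ range M, pFree (W i))) atTop atBot := tendsto_neg_atTop_atBot.comp hT
      have h4 := tendsto_atBot_add_const_left atTop (∑ i ∈ range N, pFree (W i)) h3
      refine h4.congr (fun M => by ring)
    have h3 : μ.real {ω | ∀ i, N ≤ i → ∃ a ∈ A ω, a ∈ W i} ≤ 0 := by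
      apply ge_of_tendsto h2
      filter_upwards [eventually_ge_atTop N] with M hM
      exact h1 M hM
    have h4 := le_antisymm h3 measureReal_nonneg
    rwa [measureReal_eq_zero_iff] at h4
  have h5 : ∀ᵐ ω ∂μ, ∀ N, ¬ ∀ i, max N N0 ≤ i → ∃ a ∈ A ω, a ∈ W i := by
    refine ae_all_iff.2 (fun N => ?_)
    have h6 := key (max N N0) (le_max_right _ _)
    have h7 : ∀ᵐ ω ∂μ, ω ∉ {ω | ∀ i, max N N0 ≤ i → ∃ a ∈ A ω, a ∈ W i} := measure_eq_zero_iff_ae_notMem.1 h6
    exact h7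
  filter_upwards [h5] with ω hω
  rw [frequently_atTop]
  intro N
  have h6 := hω N
  push Not at h6
  obtain ⟨i, hi, h7⟩ := h6
  exact ⟨i, (le_max_left _ _).trans hi, h7⟩

theorem pFree_le {W : Finset ℕ} (hW : ∀ n ∈ W, 3 ≤ n) {z : ℝ} (hz : ∀ n ∈ W, (n : ℝ) ≤ z) :
    pFree W ≤ Real.exp (-(W.card / Real.log z)) := prod_le_exp hW hz

theorem le_pFree {W : Finset ℕ} {y : ℝ} (hy : 2 ≤ Real.log y) (hy0 : 0 < y) (hW : ∀ n ∈ W, y ≤ (n : ℝ)) :
    Real.exp (-(W.card * (1 / Real.log y + 2 / Real.log y ^ 2))) ≤ pFree W := by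
  obtain ⟨t, ht⟩ : ∃ t : ℝ, t = 1 / Real.log y := ⟨_, rfl⟩
  have ht0 : 0 < t := by
    rw [ht]
    have : 0 < Real.log y := by linarith
    positivity
  have ht1 : t ≤ 1 / 2 := by
    rw [ht]
    exact one_div_le_one_div_of_le (by norm_num) hy
  have h1 : ∀ n ∈ W, Real.exp (-(t + 2 * t ^ 2)) ≤ 1 - 1 / Real.log (n : ℝ) := by
    intro n hn
    have h4 : Real.log y ≤ Real.log n := Real.log_le_log hy0 (hW n hn)
    have h5 : 1 / Real.log n ≤ t := by
      rw [ht]
      exact one_div_le_one_div_of_le (by linarith) h4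
    have h6 : Real.exp (-(t + 2 * t ^ 2)) ≤ 1 - t := by
      rw [← Real.le_log_iff_exp_le (by linarith)]
      have h7 := Real.one_sub_inv_le_log_of_pos (show 0 < 1 - t by linarith)
      refine le_trans ?_ h7
      have h8 : (1 - t)⁻¹ ≤ 1 + (t + 2 * t ^ 2) := by
        rw [inv_le_iff_one_le_mul₀ (by linarith)]
        nlinarith [mul_nonneg ht0.le (show 0 ≤ 1 - 2 * t by linarith), mul_nonneg (mul_nonneg ht0.le ht0.le) (show 0 ≤ 1 - 2 * t by linarith)]
      linarith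
    linarith
  have h2 : ∏ n ∈ W, Real.exp (-(t + 2 * t ^ 2)) ≤ pFree W := by
    unfold pFree
    exact Finset.prod_le_prod (fun n _ => (Real.exp_pos _).le) h1
  refine le_trans (le_of_eq ?_) h2
  rw [prod_const, ← Real.exp_nat_mul]
  congr 1
  rw [ht]
  ring

/-- The integers in the closed interval `[X, X + H]`. -/
noncomputable def cwin (X H : ℝ) : Finset ℕ := Finset.Icc ⌈X⌉₊ ⌊X + H⌋₊

theorem mem_cwin {X H : ℝ} (hX : 0 ≤ X) (hH : 0 ≤ H) {m : ℕ} : m ∈ cwin X H ↔ X ≤ m ∧ (m : ℝ) ≤ X + H := by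
  unfold cwin
  rw [Finset.mem_Icc, Nat.ceil_le, Nat.le_floor_iff (by linarith)]

theorem card_cwin {X H : ℝ} (hX : 0 ≤ X) (hH : 0 ≤ H) :
    H - 1 ≤ ((cwin X H).card : ℝ) ∧ ((cwin X H).card : ℝ) ≤ H + 1 := by
  unfold cwin
  rw [Nat.card_Icc]
  have h1 := Nat.ceil_lt_add_one hX
  have h2 := Nat.le_ceil X
  have h3 := Nat.floor_le (show 0 ≤ X + H by linarith)
  have h4 := Nat.lt_floor_add_one (X + H)
  constructor
  · have h5 : ((⌊X + H⌋₊ + 1 : ℕ) : ℝ) - (⌈X⌉₊ : ℝ) ≤ ((⌊X + H⌋₊ + 1 - ⌈X⌉₊ : ℕ) : ℝ) := by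
      rw [sub_le_iff_le_add]
      have : ⌊X + H⌋₊ + 1 ≤ (⌊X + H⌋₊ + 1 - ⌈X⌉₊) + ⌈X⌉₊ := by omega
      exact_mod_cast this
    push_cast at h5
    linarith
  · rcases Nat.lt_or_ge (⌊X + H⌋₊ + 1) ⌈X⌉₊ with h | h
    · have h5 : ⌊X + H⌋₊ + 1 - ⌈X⌉₊ = 0 := by omega
      rw [h5]
      push_cast
      linarith
    · rw [Nat.cast_sub h]
      push_cast
      linarith

/-- The integers in the half-open interval `(X, X + H]`. -/
noncomputable def owin (X H : ℝ) : Finset ℕ := Finset.Ioc ⌊X⌋₊ ⌊X + H⌋₊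

theorem mem_owin {X H : ℝ} (hX : 0 ≤ X) (hH : 0 ≤ H) {m : ℕ} : m ∈ owin X H ↔ X < m ∧ (m : ℝ) ≤ X + H := by
  unfold owin
  rw [Finset.mem_Ioc, Nat.floor_lt hX, Nat.le_floor_iff (by linarith)]

theorem card_owin {X H : ℝ} (hX : 0 ≤ X) (hH : 0 ≤ H) :
    H - 1 ≤ ((owin X H).card : ℝ) ∧ ((owin X H).card : ℝ) ≤ H + 1 := by
  unfold owin
  rw [Nat.card_Ioc, Nat.cast_sub (Nat.floor_le_floor (by linarith))]
  have h1 := Nat.floor_le hX
  have h2 := Nat.lt_floor_add_one X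
  have h3 := Nat.floor_le (show 0 ≤ X + H by linarith)
  have h4 := Nat.lt_floor_add_one (X + H)
  constructor <;> linarith

end Pool.Agent.Q120.PT
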