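import Mathlib
import Pool.Agent.H381R2.HR.A1
import Pool.Agent.H381R2.HR.A2

/-!
# Bounds for the `n`-th prime from the prime number theorem with error term
-/

set_option autoImplicit false

namespace Pool.Agent.Q120.PT

open Finset Filter

/-- The `n`-th prime, `pp 1 = 2`. -/
noncomputable def pp (n : ℕ) : ℕ := Nat.nth Nat.Prime (n - 1)

theorem pp_prime (n : ℕ) : (pp n).Prime := Nat.prime_nth_prime _

theorem primeCounting_pp {n : ℕ} (hn : 1 ≤ n) : Nat.primeCounting (pp n) = n := by
  unfold pp Nat.primeCounting Nat.primeCounting'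
  rw [Nat.count_succ, if_pos (Nat.prime_nth_prime _)]
  have h1 := Nat.primeCounting'_nth_eq (n - 1)
  unfold Nat.primeCounting' at h1
  rw [h1]
  omega

theorem le_pp {n : ℕ} (hn : 1 ≤ n) : n ≤ pp n := by
  have h1 := primeCounting_pp hn
  have h2 : Nat.primeCounting (pp n) ≤ pp n := by
    unfold Nat.primeCounting Nat.primeCounting'
    rw [Nat.count_eq_card_filter_range]
    refine (card_le_card (t := Finset.Icc 1 (pp n)) ?_).trans ?_
    · intro m hm
      rw [mem_filter, mem_range] at hm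
      rw [Finset.mem_Icc]
      exact ⟨hm.2.one_lt.le, by omega⟩
    · rw [Nat.card_Icc]
      omega
  omega

theorem tendsto_pp : Tendsto (fun n => (pp n : ℝ)) atTop atTop := by
  apply tendsto_atTop_mono' atTop _ tendsto_natCast_atTop_atTop
  filter_upwards [eventually_ge_atTop 1] with n hn
  exact_mod_cast le_pp hn

theorem pp_pnt : ∃ C : ℝ, 0 < C ∧ ∀ n : ℕ, 1 ≤ n →
    |(n : ℝ) - pp n / Real.log (pp n)| ≤ C * (pp n / Real.log (pp n) ^ 2) := by
  obtain ⟨C, hC, h⟩ := Pool.Agent.H381R2.HR.A2 Pool.Agent.H381R2.HR.A1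
  refine ⟨C, hC, ?_⟩
  intro n hn
  have h1 := h (pp n) (by exact_mod_cast (pp_prime n).two_le)
  rw [Nat.floor_natCast, primeCounting_pp hn] at h1
  exact h1

/-- `p_n ≥ (1 - δ) n log n`. -/
theorem pp_lower {δ : ℝ} (hδ : 0 < δ) (hδ1 : δ < 1) :
    ∀ᶠ n : ℕ in atTop, (1 - δ) * (n * Real.log n) ≤ pp n := by
  obtain ⟨C, hC, h⟩ := pp_pnt
  have hl := Real.tendsto_log_atTop.comp tendsto_pp
  filter_upwards [eventually_ge_atTop 2, hl.eventually_ge_atTop (C / δ), hl.eventually_ge_atTop 1] with n hn hL hL1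
  simp only [Function.comp] at hL hL1
  obtain ⟨P, hP⟩ : ∃ P : ℝ, P = pp n := ⟨_, rfl⟩
  obtain ⟨L, hLd⟩ : ∃ L : ℝ, L = Real.log P := ⟨_, rfl⟩
  have h1 := h n (by omega)
  rw [← hP] at h1 hL hL1 ⊢
  rw [← hLd] at h1 hL hL1
  have hL0 : 0 < L := by linarith
  have hnP : (n : ℝ) ≤ P := by rw [hP]; exact_mod_cast le_pp (by omega : 1 ≤ n)
  have hn0 : (0 : ℝ) < n := by
    have : 0 < n := by omega
    exact_mod_cast this
  have hP0 : 0 < P := by linarith
  have hlogn : Real.log n ≤ L := by rw [hLd]; exact Real.log_le_log hn0 hnP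
  have h2 := (abs_le.1 h1).2
  have h3 : C * (P / L ^ 2) ≤ δ * (P / L) := by
    rw [div_le_iff₀ hδ] at hL
    have h4 : C * (P / L ^ 2) = C / L * (P / L) := by field_simp
    rw [h4]
    apply mul_le_mul_of_nonneg_right _ (by positivity)
    rw [div_le_iff₀ hL0]
    linarith
  have h5 : (n : ℝ) ≤ (1 + δ) * (P / L) := by linarith
  have h6 : (1 - δ) * (n * L) ≤ P := by
    have h7 : (1 - δ) * (n * L) ≤ (1 - δ) * ((1 + δ) * (P / L) * L) := by
      apply mul_le_mul_of_nonneg_left _ (by linarith)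
      exact mul_le_mul_of_nonneg_right h5 hL0.le
    have h8 : (1 - δ) * ((1 + δ) * (P / L) * L) = (1 - δ ^ 2) * P := by
      field_simp
      ring
    rw [h8] at h7
    nlinarith [mul_nonneg (sq_nonneg δ) hP0.le]
  refine le_trans ?_ h6
  apply mul_le_mul_of_nonneg_left _ (by linarith)
  exact mul_le_mul_of_nonneg_left hlogn hn0.le

/-- `p_n ≤ n (log n + log log n + C)`. -/
theorem pp_upper : ∃ C : ℝ, 0 < C ∧
    ∀ᶠ n : ℕ in atTop, (pp n : ℝ) ≤ n * (Real.log n + Real.log (Real.log n) + C) := by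
  obtain ⟨C, hC, h⟩ := pp_pnt
  refine ⟨2 + 2 * C, by linarith, ?_⟩
  have hl := Real.tendsto_log_atTop.comp tendsto_pp
  -- `log P + 2 C ≤ sqrt P`
  have hs := (isLittleO_log_rpow_atTop (show (0 : ℝ) < 1 / 2 by norm_num)).bound (show (0 : ℝ) < 1 / 2 by norm_num)
  have hs2 := tendsto_pp.eventually hs
  have hln : Tendsto (fun n : ℕ => Real.log (n : ℝ)) atTop atTop :=
    Real.tendsto_log_atTop.comp tendsto_natCast_atTop_atTop
  filter_upwards [eventually_ge_atTop 2, hl.eventually_ge_atTop (2 * C), hl.eventually_ge_atTop 1, hs2,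
    hl.eventually_ge_atTop (2 * C), hln.eventually_ge_atTop (2 * C), hln.eventually_ge_atTop 1] with
    n hn hL hL1 hsq hL2 hn1 hn2
  simp only [Function.comp] at hL hL1 hL2
  obtain ⟨P, hP⟩ : ∃ P : ℝ, P = pp n := ⟨_, rfl⟩
  obtain ⟨L, hLd⟩ : ∃ L : ℝ, L = Real.log P := ⟨_, rfl⟩
  have h1 := h n (by omega)
  rw [← hP] at h1 hL hL1 hsq hL2 ⊢
  rw [← hLd] at h1 hL hL1 hsq hL2
  have hL0 : 0 < L := by linarith
  have hnP : (n : ℝ) ≤ P := by rw [hP]; exact_mod_cast le_pp (by omega : 1 ≤ n)
  have hn0 : (0 : ℝ) < n := by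
    have : 0 < n := by omega
    exact_mod_cast this
  have hP0 : 0 < P := by linarith
  have h2 := (abs_le.1 h1).1
  -- `P ≤ n (L + 2 C)`
  have h3 : P / L * (1 - C / L) ≤ n := by
    have h4 : C * (P / L ^ 2) = P / L * (C / L) := by field_simp
    rw [h4] at h2
    linarith
  have hu : C / L ≤ 1 / 2 := by
    rw [div_le_iff₀ hL0]
    linarith
  have hu0 : 0 < C / L := by positivity
  have h5 : P ≤ n * (L + 2 * C) := by
    have h6 : P = P / L * L := by field_simp
    have h7 : L + 2 * C = L * (1 + 2 * (C / L)) := by field_simp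
    have h8 : 1 ≤ (1 - C / L) * (1 + 2 * (C / L)) := by nlinarith
    calc P = P / L * L * 1 := by rw [mul_one]; exact h6
      _ ≤ P / L * L * ((1 - C / L) * (1 + 2 * (C / L))) := mul_le_mul_of_nonneg_left h8 (by positivity)
      _ = (P / L * (1 - C / L)) * (L * (1 + 2 * (C / L))) := by ring
      _ ≤ n * (L * (1 + 2 * (C / L))) := mul_le_mul_of_nonneg_right h3 (by positivity)
      _ = n * (L + 2 * C) := by rw [h7]
  -- `P ≤ n ^ 2`
  have h9 : L + 2 * C ≤ P ^ (1 / 2 : ℝ) := by
    rw [Real.norm_of_nonneg hL0.le, Real.norm_of_nonneg (by positivity)] at hsq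
    linarith
  have hPsq : P ^ (1 / 2 : ℝ) * P ^ (1 / 2 : ℝ) = P := by
    rw [← Real.rpow_add hP0]
    norm_num
  have hPs0 : 0 < P ^ (1 / 2 : ℝ) := by positivity
  have h10 : P ^ (1 / 2 : ℝ) ≤ n := by
    have h11 : P ^ (1 / 2 : ℝ) * P ^ (1 / 2 : ℝ) ≤ n * P ^ (1 / 2 : ℝ) := by
      rw [hPsq]
      exact h5.trans (mul_le_mul_of_nonneg_left h9 hn0.le)
    exact le_of_mul_le_mul_right h11 hPs0
  have h12 : P ≤ (n : ℝ) ^ 2 := by
    rw [← hPsq]
    nlinarith
  have h13 : L ≤ 2 * Real.log n := by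
    rw [hLd]
    have := Real.log_le_log hP0 h12
    rw [Real.log_pow] at this
    push_cast at this
    exact this
  have h14 : P ≤ 3 * (n * Real.log n) := by
    have : n * (L + 2 * C) ≤ n * (3 * Real.log n) := mul_le_mul_of_nonneg_left (by linarith) hn0.le
    linarith
  have h15 : L ≤ Real.log 3 + (Real.log n + Real.log (Real.log n)) := by
    rw [hLd]
    have h16 := Real.log_le_log hP0 h14
    rw [Real.log_mul (by norm_num) (by positivity), Real.log_mul (by positivity) (by positivity)] at h16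
    exact h16
  have h17 : Real.log 3 ≤ 2 := by
    have := Real.log_le_sub_one_of_pos (show (0 : ℝ) < 3 by norm_num)
    linarith
  refine h5.trans (mul_le_mul_of_nonneg_left ?_ hn0.le)
  linarith

/-- `∑ 1 / (n log n)` diverges. -/
theorem not_summable_inv_mul_log : ¬ Summable (fun n : ℕ => 1 / ((n : ℝ) * Real.log n)) := by
  intro hs
  obtain ⟨f, hf⟩ : ∃ f : ℕ → ℝ, f = fun (n : ℕ) => if n ≤ 2 then (1 : ℝ) else 1 / ((n : ℝ) * Real.log (n : ℝ)) := ⟨_, rfl⟩
  have hlog : ∀ n : ℕ, 3 ≤ n → 1 ≤ Real.log (n : ℝ) := by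
    intro n hn
    rw [Real.le_log_iff_exp_le (by
      have : 0 < n := by omega
      exact_mod_cast this)]
    have : (3 : ℝ) ≤ n := by exact_mod_cast hn
    linarith [Real.exp_one_lt_d9]
  have hs2 : Summable f := by
    rw [← summable_nat_add_iff 3]
    refine ((summable_nat_add_iff 3).2 hs).congr (fun n => ?_)
    rw [hf]
    simp only
    rw [if_neg (by omega)]
  have hnn : ∀ n, 0 ≤ f n := by
    intro n
    rw [hf]
    simp only
    split_ifs with h
    · exact zero_le_one
    · have := hlog n (by omega)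
      positivity
  have hanti : ∀ ⦃m n : ℕ⦄, 0 < m → m ≤ n → f n ≤ f m := by
    intro m n hm hmn
    rw [hf]
    simp only
    split_ifs with h1 h2 h2
    · exact le_refl _
    · omega
    · have h3 := hlog n (by omega)
      rw [div_le_one (by
        have : (0 : ℝ) < n := by
          have : 0 < n := by omega
          exact_mod_cast this
        positivity)]
      have h4 : (1 : ℝ) ≤ n := by
        have : 1 ≤ n := by omega
        exact_mod_cast this
      nlinarith
    · have h3 := hlog m (by omega)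
      have h4 : (0 : ℝ) < m := by exact_mod_cast hm
      have h5 : (m : ℝ) ≤ n := by exact_mod_cast hmn
      have h6 : Real.log (m : ℝ) ≤ Real.log n := Real.log_le_log h4 h5
      apply one_div_le_one_div_of_le (by positivity)
      apply mul_le_mul h5 h6 (by linarith) (by linarith)
  have h1 := (summable_condensed_iff_of_nonneg hnn hanti).2 hs2
  have h2 : Summable (fun k : ℕ => (1 / Real.log 2) * ((k : ℝ))⁻¹) := by
    refine Summable.of_norm_bounded_eventually_nat h1 ?_
    filter_upwards [eventually_ge_atTop 2] with k hk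
    have hl2 : 0 < Real.log 2 := Real.log_pos (by norm_num)
    have hk0 : (0 : ℝ) < k := by
      have : 0 < k := by omega
      exact_mod_cast this
    have h3 : 2 < 2 ^ k := by
      calc 2 < 2 ^ 2 := by norm_num
        _ ≤ 2 ^ k := Nat.pow_le_pow_right (by norm_num) hk
    rw [Real.norm_of_nonneg (by positivity), hf]
    simp only
    rw [if_neg (by omega)]
    push_cast
    rw [Real.log_pow]
    apply le_of_eq
    field_simp
  have h3 : Summable (fun k : ℕ => ((k : ℝ))⁻¹) := by
    have hl2 : 0 < Real.log 2 := Real.log_pos (by norm_num)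
    refine (h2.mul_left (Real.log 2)).congr (fun k => ?_)
    field_simp
  exact Real.not_summable_natCast_inv h3

end Pool.Agent.Q120.PT
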